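import Pool.Agent.W558.WA.Stms

set_option autoImplicit false
set_option linter.unusedVariables false
set_option linter.unusedSectionVars false

universe u

/-! AS-TBL: the blowup of the intersection of two components of the boundary. -/

namespace Pool.Agent.W440.WA.Tbl

open Pool.Agent.W558

section

variable {k N : Type u} [Field k] [Field N] [Algebra k N]

theorem snc_reindex {A : Subalgebra k N} {I J : Type} {x : I → N} (h : SNC A x) (σ : J → I)
    (hσ : Function.Injective σ) : SNC A (fun j => x (σ j)) := by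
  intro κ _ _ φ i hi hφ
  obtain ⟨D, hD, hD'⟩ := h κ φ (σ i) hi hφ
  exact ⟨D, hD, fun j hj hne hφj => hD' (σ j) hj (fun e => hne (hσ e)) hφj⟩

/-- swap the first two indices -/
def sw {I : Type} : Option (Option I) → Option (Option I)
  | none => some none
  | some none => none
  | some (some l) => some (some l)

theorem sw_inj {I : Type} : Function.Injective (sw : Option (Option I) → _) := by
  rintro (_ | _ | a) (_ | _ | b) h
  · rfl
  · simp [sw] at h
  · simp [sw] at h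
  · simp [sw] at h
  · rfl
  · simp [sw] at h
  · simp [sw] at h
  · simp [sw] at h
  · exact h

variable {T I : Type} [Fintype I] [DecidableEq I] (M : LM (⊥ : Subalgebra k N) ⊤ T I) {i j : I}

theorem snc_aux (hij : i ≠ j) (q : T × Bool) (y : N) (hy : y ∈ M.A q.1) (hy0 : y ≠ 0)
    (h : SNC (M.A q.1) (ox y (M.x q.1))) : SNC (bA M i j q) (ox y (bX M i j q)) := by
  have := M.sm q.1
  have hx : ∀ o, ox y (M.x q.1) o ∈ M.A q.1 := by
    rintro (_ | l)
    · exact hy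
    · exact M.xA _ _
  have hx0 : ∀ o, ox y (M.x q.1) o ≠ 0 := by
    rintro (_ | l)
    · exact hy0
    · exact M.x0 _ _
  have hne : (some (nu i j q.2) : Option I) ≠ some (de i j q.2) := fun e =>
    nu_ne_de i j hij q.2 (Option.some.inj e)
  have h1 := h.blow hx hx0 hne
  have h2 := snc_reindex h1 sw sw_inj
  have h3 : (fun o => bx (ox y (M.x q.1)) (some (nu i j q.2)) (some (de i j q.2)) (sw o)) =
      ox y (bX M i j q) := by
    funext o
    rcases o with _ | _ | l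
    · simp [sw, bx, ox]
    · simp [sw, bx, ox, bX]
    · simp [sw, bx, ox, bX]
  rw [h3] at h2
  exact h2

/-- Lifting of logarithmic tangent vectors. -/
theorem lift0 (hij : i ≠ j) (q : T × Bool) (κ : Type u) [Field κ] [Algebra k κ]
    (A' : Subalgebra k N) (X' : Option I → N) (hA' : A' = bA M i j q) (hX' : X' = bX M i j q)
    (hle : M.A q.1 ≤ A') (φ : A' →ₐ[k] κ) (φ0 : M.A q.1 →ₐ[k] κ)
    (hφ0 : ∀ z (hz : z ∈ M.A q.1), φ ⟨z, hle hz⟩ = φ0 ⟨z, hz⟩) (v : LT φ0 (M.x q.1)) :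
    ∃ v' : LT φ X', (∀ z (hz : z ∈ M.A q.1), v'.D.D ⟨z, hle hz⟩ = v.D.D ⟨z, hz⟩) ∧
      ((∀ l, v.e l = 0) → ∀ o, v'.e o = 0) ∧
      ∀ c : I → ℤ, ∑ o, ((bΓ i j c o : ℤ) : κ) * v'.e o = ∑ l, (c l : κ) * v.e l := by
  subst hA' hX'
  have := M.sm q.1
  set a : I := nu i j q.2 with ha
  set b : I := de i j q.2 with hb
  have hab : a ≠ b := nu_ne_de i j hij q.2
  have hyx : ((⟨M.x q.1 b, M.xA _ _⟩ : M.A q.1) : N) ≠ 0 := M.x0 _ _
  have hT : Trans (M.A q.1) (⟨M.x q.1 a, M.xA _ _⟩ : M.A q.1) ⟨M.x q.1 b, M.xA _ _⟩ :=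
    (M.snc q.1).trans hab _ _
  have hvm : M.x q.1 a / M.x q.1 b ∈ bA M i j q := vv_mem M i j q
  have hDa := v.hx a (M.xA _ _)
  have hDb := v.hx b (M.xA _ _)
  have hrel : φ0 ⟨M.x q.1 b, M.xA _ _⟩ * φ ⟨M.x q.1 a / M.x q.1 b, hvm⟩ =
      φ0 ⟨M.x q.1 a, M.xA _ _⟩ := by
    rw [← hφ0 _ (M.xA _ _), ← hφ0 _ (M.xA _ _), ← map_mul]
    congr 1
    apply Subtype.ext
    change M.x q.1 b * (M.x q.1 a / M.x q.1 b) = M.x q.1 a
    have := M.x0 q.1 b
    field_simp
  obtain ⟨E, hE1, hE2⟩ : ∃ E : TV φ, (∀ z : M.A q.1, E.D ⟨z, hle z.2⟩ = v.D.D z) ∧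
      E.D ⟨M.x q.1 a / M.x q.1 b, hvm⟩ =
        φ ⟨M.x q.1 a / M.x q.1 b, hvm⟩ * (v.e a - v.e b) :=
    TV.ext_adj (A := M.A q.1) hyx hT φ φ0 (fun z => hφ0 z.1 z.2) v.D
    (φ ⟨M.x q.1 a / M.x q.1 b, hvm⟩ * (v.e a - v.e b)) (by
      change φ0 ⟨M.x q.1 b, M.xA _ _⟩ * (φ ⟨M.x q.1 a / M.x q.1 b, hvm⟩ *
        (v.e a - v.e b)) + φ ⟨M.x q.1 a / M.x q.1 b, hvm⟩ *
        v.D.D ⟨M.x q.1 b, M.xA _ _⟩ = v.D.D ⟨M.x q.1 a, M.xA _ _⟩
      rw [hDa, hDb, ← hrel]
      ring)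
  have hE1' : ∀ (z : N) (hz : z ∈ M.A q.1) (hz' : z ∈ bA M i j q), E.D ⟨z, hz'⟩ =
      v.D.D ⟨z, hz⟩ := fun z hz hz' => hE1 ⟨z, hz⟩
  have hφ0' : ∀ (z : N) (hz : z ∈ M.A q.1) (hz' : z ∈ bA M i j q), φ ⟨z, hz'⟩ = φ0 ⟨z, hz⟩ :=
    fun z hz hz' => hφ0 z hz
  let e' : Option I → κ
    | none => v.e b
    | some l => if l = a then v.e a - v.e b else if l = b then 0 else v.e l
  refine ⟨⟨E, e', ?_⟩, ?_, ?_, ?_⟩
  · rintro (_ | l) ho
    · change E.D ⟨M.x q.1 b, ho⟩ = φ ⟨M.x q.1 b, ho⟩ * v.e b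
      rw [hE1' _ (M.xA _ _), hφ0' _ (M.xA _ _)]
      exact hDb
    · change E.D ⟨bX M i j q (some l), ho⟩ = φ ⟨bX M i j q (some l), ho⟩ * (if l = a then
        v.e a - v.e b else if l = b then 0 else v.e l)
      simp only [bX, bx] at ho ⊢
      split_ifs at ho ⊢ with h1 h2
      · exact hE2
      · rw [mul_zero]
        exact E.D_one
      · rw [hE1' _ (M.xA _ _), hφ0' _ (M.xA _ _)]
        exact v.hx l (M.xA _ _)
  · intro z hz
    exact hE1 ⟨z, hz⟩
  · intro h0 o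
    rcases o with _ | l
    · exact h0 b
    · change (if l = a then v.e a - v.e b else if l = b then 0 else v.e l) = 0
      rw [h0 a, h0 b, h0 l]
      split_ifs <;> simp
  · intro c
    rw [Fintype.sum_option]
    change ((c i + c j : ℤ) : κ) * v.e b +
        ∑ l, (c l : κ) * (if l = a then v.e a - v.e b else if l = b then 0 else v.e l) =
        ∑ l, (c l : κ) * v.e l
    have h1 : ∀ l, (c l : κ) * (if l = a then v.e a - v.e b else
        if l = b then 0 else v.e l) = (c l : κ) * v.e l -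
        (if l = a then (c l : κ) * v.e b else 0) -
        (if l = b then (c l : κ) * v.e b else 0) := by
      intro l
      by_cases h1 : l = a
      · subst h1
        rw [if_pos rfl, if_pos rfl, if_neg hab]
        ring
      · by_cases h2 : l = b
        · subst h2
          rw [if_neg h1, if_pos rfl, if_neg h1, if_pos rfl]
          ring
        · rw [if_neg h1, if_neg h2, if_neg h1, if_neg h2]
          ring
    simp only [h1, Finset.sum_sub_distrib, Finset.sum_ite_eq', Finset.mem_univ, if_true]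
    have h2 : (c a : κ) + (c b : κ) = (c i : κ) + (c j : κ) := by
      rcases q with ⟨t, b'⟩
      cases b'
      · change (c j : κ) + (c i : κ) = _
        ring
      · rfl
    push_cast
    linear_combination (- v.e b) * h2

/-- The same with the additional element `y`. -/
theorem lift1 (hij : i ≠ j) (q : T × Bool) (y : N) (hy : y ∈ M.A q.1) (κ : Type u) [Field κ]
    [Algebra k κ]
    (A' : Subalgebra k N) (X' : Option I → N) (hA' : A' = bA M i j q) (hX' : X' = bX M i j q)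
    (hle : M.A q.1 ≤ A') (φ : A' →ₐ[k] κ) (φ0 : M.A q.1 →ₐ[k] κ)
    (hφ0 : ∀ z (hz : z ∈ M.A q.1), φ ⟨z, hle hz⟩ = φ0 ⟨z, hz⟩) (v : LT φ0 (ox y (M.x q.1))) :
    ∃ v' : LT φ (ox y X'), (∀ z (hz : z ∈ M.A q.1), v'.D.D ⟨z, hle hz⟩ = v.D.D ⟨z, hz⟩) ∧
      v'.e none = v.e none ∧
      ∀ c : I → ℤ, ∑ o, ((bΓ i j c o : ℤ) : κ) * v'.e (some o) = ∑ l, (c l : κ) * v.e (some l) := by
  let v0 : LT φ0 (M.x q.1) := ⟨v.D, fun l => v.e (some l), fun l h => v.hx (some l) h⟩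
  obtain ⟨w, hw1, -, hw3⟩ := lift0 M hij q κ A' X' hA' hX' hle φ φ0 hφ0 v0
  refine ⟨⟨w.D, fun o => o.elim (v.e none) w.e, ?_⟩, hw1, rfl, hw3⟩
  rintro (_ | o) ho
  · change w.D.D ⟨y, ho⟩ = φ ⟨y, ho⟩ * v.e none
    have h1 : w.D.D ⟨y, ho⟩ = v.D.D ⟨y, hy⟩ := hw1 y hy
    have h2 : φ ⟨y, ho⟩ = φ0 ⟨y, hy⟩ := hφ0 y hy
    rw [h1, h2]
    exact v.hx none hy
  · exact w.hx o ho

end

theorem main : WA_tbl.{u} := by
  intro p _ k N _ _ _ _ T I G _ _ _ M F Q y h r c μ g Γ hPS hLq hFn i j hij hci hcj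
  obtain ⟨M', hA, hx, hH⟩ := exists_blowup M hij
  have hA' : ∀ q, M'.A q = bA M i j q := fun q => congrFun hA q
  have hx' : ∀ q, M'.x q = bX M i j q := fun q => congrFun hx q
  have hle : ∀ q : T × Bool, M.A q.1 ≤ M'.A q := fun q => by
    rw [hA']; exact le_bA M i j q
  have hxl : ∀ (q : T × Bool) (l : I), M.x q.1 l = M'.x q (some l) *
      (if l = i ∨ l = j then M'.x q none else 1) := fun q l => by
    rw [hx']; exact x_eq_bX M hij q l
  have hcm : ∀ (q : T × Bool) (l : I), (if l = i ∨ l = j then M'.x q none else 1) ∈ M'.A q := by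
    intro q l
    split_ifs
    · exact M'.xA _ _
    · exact (M'.A q).one_mem
  have hce : (fun o : Option I => (o.elim (c i + c j) c : ℤ)) = bΓ i j c := by
    funext o
    cases o <;> rfl
  obtain ⟨hs1, hs2, hs3, hs4⟩ := sep_blowup M hij M' hA hx
  refine ⟨M', fun q => y q.1, fun q => h q.1, fun q => r q.1, bΓ i j μ, fun a => bΓ i j (Γ a), ?_,
    ?_, (ext_blowup M hij g Γ M' hA hx hH).fn hFn, hs1, hs2, hs3, hs4, ?_, ?_⟩
  · refine ⟨fun q => hle q (hPS.yA q.1), fun q => hPS.y0 q.1, fun q => hle q (hPS.hA q.1),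
      fun q => hle q (hPS.rA q.1), ?_, ?_, fun q => hPS.yQ q.1, ?_, ?_, ?_, ?_, ?_, ?_, ?_, ?_, ?_⟩
    · intro q
      rw [hA']
      refine adj_le (hPS.AQ q.1) ?_
      unfold vv
      rw [div_eq_mul_inv]
      exact Q.mul_mem (hPS.AQ q.1 (M.xA _ _)) (hPS.xQ _ _)
    · intro q o
      rw [hx']
      rcases o with _ | l
      · exact hPS.xQ _ _
      · simp only [bX, bx]
        split_ifs
        · rw [inv_div, div_eq_mul_inv]
          exact Q.mul_mem (hPS.AQ q.1 (M.xA _ _)) (hPS.xQ _ _)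
        · rw [inv_one]
          exact Q.one_mem
        · exact hPS.xQ _ _
    · -- m0
      rintro (_ | l)
      · change μ i + μ j ≤ 0
        have h1 := hPS.m0 i
        have h2 := hPS.m0 j
        omega
      · exact hPS.m0 l
    · -- cp
      rintro (_ | l)
      · change c i + c j ≤ (p : ℤ)
        have h1 := hPS.cp i
        omega
      · exact hPS.cp l
    · -- cm
      rintro (_ | l) h0
      · change μ i + μ j < 0
        have h1 := hPS.cm i hci
        have h2 := hPS.m0 j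
        omega
      · exact hPS.cm l h0
    · -- eq
      intro q
      have h1 := hPS.eq q.1
      rw [prod_bX M hij q, prod_bX M hij q, prod_bX M hij q] at h1
      have h2 : bΓ i j (fun l => (p : ℤ) * μ l) = fun o => (p : ℤ) * bΓ i j μ o := by
        funext o
        cases o with
        | none =>
          change (p : ℤ) * μ i + (p : ℤ) * μ j = (p : ℤ) * (μ i + μ j)
          ring
        | some l => rfl
      have h3 : bΓ i j (fun l => -((p : ℤ) - 1) * μ l) =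
          fun o => -((p : ℤ) - 1) * bΓ i j μ o := by
        funext o
        cases o with
        | none =>
          change -((p : ℤ) - 1) * μ i + -((p : ℤ) - 1) * μ j = -((p : ℤ) - 1) * (μ i + μ j)
          ring
        | some l => rfl
      rw [h2, h3, ← hce] at h1
      rw [hx']
      exact h1
    · intro q
      rw [hA', hx']
      exact snc_aux M hij q (y q.1) (hPS.yA q.1) (hPS.y0 q.1) (hPS.snc q.1)
    · -- ri
      intro q κ _ _ φ o ho hφ
      let φ0 : M.A q.1 →ₐ[k] κ := φ.comp (Subalgebra.inclusion (hle q))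
      have hφ0 : ∀ z (hz : z ∈ M.A q.1), φ ⟨z, hle q hz⟩ = φ0 ⟨z, hz⟩ := fun z hz => rfl
      have hmul : ∀ l, φ ⟨M'.x q (some l), M'.xA _ _⟩ = 0 ∨
          ((l = i ∨ l = j) ∧ φ ⟨M'.x q none, M'.xA _ _⟩ = 0) → φ0 ⟨M.x q.1 l, M.xA _ _⟩ = 0 := by
        intro l hl
        have h1 : (⟨M.x q.1 l, hle q (M.xA _ _)⟩ : M'.A q) = ⟨M'.x q (some l), M'.xA _ _⟩ *
            ⟨(if l = i ∨ l = j then M'.x q none else 1), hcm q l⟩ := Subtype.ext (hxl q l)
        rw [← hφ0 _ (M.xA _ _), h1, map_mul]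
        rcases hl with hl | ⟨hl1, hl2⟩
        · rw [hl, zero_mul]
        · have h2 : (⟨(if l = i ∨ l = j then M'.x q none else 1), hcm q l⟩ : M'.A q) =
              ⟨M'.x q none, M'.xA _ _⟩ := Subtype.ext (by simp only [if_pos hl1])
          rw [h2, hl2, mul_zero]
      rcases o with _ | l
      · have h1 := hmul j (Or.inr ⟨Or.inr rfl, hφ⟩)
        rcases hPS.ri q.1 κ φ0 j (Or.inr hcj) h1 with h2 | h2
        · exact Or.inl h2
        · exfalso
          omega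
      · have h1 := hmul l (Or.inl hφ)
        rcases hPS.ri q.1 κ φ0 l ho h1 with h2 | h2
        · exact Or.inl h2
        · exact Or.inr ⟨h2.1, hle q h2.2⟩
    · -- ln
      intro q κ _ _ φ hr
      let φ0 : M.A q.1 →ₐ[k] κ := φ.comp (Subalgebra.inclusion (hle q))
      have hφ0 : ∀ z (hz : z ∈ M.A q.1), φ ⟨z, hle q hz⟩ = φ0 ⟨z, hz⟩ := fun z hz => rfl
      obtain ⟨v, hv⟩ := hPS.ln q.1 κ φ0 hr
      obtain ⟨v', h1, h2, h3⟩ := lift1 M hij q (y q.1) (hPS.yA q.1) κ (M'.A q) (M'.x q) (hA' q)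
        (hx' q) (hle q) φ φ0 hφ0 v
      refine ⟨v', ?_⟩
      intro h0
      apply hv
      unfold om at h0 ⊢
      rw [Fintype.sum_option] at h0 ⊢
      have h4 := h3 c
      rw [← hce] at h4
      change v'.D.D ⟨h q.1, _⟩ + φ ⟨h q.1, _⟩ * (((0 : ℤ) : κ) * v'.e none +
        ∑ o : Option I, ((o.elim (c i + c j) c : ℤ) : κ) * v'.e (some o)) = 0 at h0
      change v.D.D ⟨h q.1, _⟩ + φ0 ⟨h q.1, _⟩ * (((0 : ℤ) : κ) * v.e none +
        ∑ l, (c l : κ) * v.e (some l)) = 0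
      rw [h4, h2, h1 _ (hPS.hA q.1), hφ0 _ (hPS.hA q.1)] at h0
      exact h0
    · -- vt
      intro q κ _ _ φ
      let φ0 : M.A q.1 →ₐ[k] κ := φ.comp (Subalgebra.inclusion (hle q))
      have hφ0 : ∀ z (hz : z ∈ M.A q.1), φ ⟨z, hle q hz⟩ = φ0 ⟨z, hz⟩ := fun z hz => rfl
      rcases hPS.vt q.1 κ φ0 with h1 | ⟨D, hD1, hD2, hD3⟩
      · exact Or.inl (hle q h1)
      · right
        let v0 : LT φ0 (M.x q.1) := ⟨D, fun _ => 0, fun l hl => by rw [mul_zero]; exact hD2 l⟩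
        obtain ⟨w, hw1, hw2, -⟩ := lift0 M hij q κ (M'.A q) (M'.x q) (hA' q) (hx' q) (hle q) φ φ0
          hφ0 v0
        refine ⟨w.D, ?_, ?_, ?_⟩
        · rw [hw1 _ (hPS.yA q.1)]
          exact hD1
        · intro o
          rw [w.hx o (M'.xA _ _), hw2 (fun _ => rfl) o, mul_zero]
        · rw [hw1 _ (hPS.hA q.1)]
          exact hD3
    · -- vl
      intro q κ _ _ φ
      let φ0 : M.A q.1 →ₐ[k] κ := φ.comp (Subalgebra.inclusion (hle q))
      have hφ0 : ∀ z (hz : z ∈ M.A q.1), φ ⟨z, hle q hz⟩ = φ0 ⟨z, hz⟩ := fun z hz => rfl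
      obtain ⟨v, hv1, hv2, hv3⟩ := hPS.vl q.1 κ φ0
      obtain ⟨v', h1, h2, h3⟩ := lift1 M hij q (y q.1) (hPS.yA q.1) κ (M'.A q) (M'.x q) (hA' q)
        (hx' q) (hle q) φ φ0 hφ0 v
      refine ⟨v', ?_, ?_, ?_⟩
      · rw [h1 _ (hPS.hA q.1)]
        exact hv1
      · have h4 := h3 c
        rw [← hce] at h4
        exact h4.trans hv2
      · rw [h2, h3 μ]
        exact hv3
  · intro q z hz
    obtain ⟨α, hα, β, hβ, h1⟩ := hLq q.1 z hz
    exact ⟨α, hle q hα, β, hle q hβ, h1⟩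
  · intro l hl q
    obtain ⟨α, hα, β, hβ, h1⟩ := hl q.1
    refine ⟨α * (if l = i ∨ l = j then M'.x q none else 1),
      (M'.A q).mul_mem (hle q hα) (hcm q l), β, hle q hβ, ?_⟩
    rw [hxl q l] at h1
    linear_combination h1
  · intro hl q
    obtain ⟨α, hα, β, hβ, h1⟩ := hl q.1
    refine ⟨α * M'.x q (some i), (M'.A q).mul_mem (hle q hα) (M'.xA _ _), β, hle q hβ, ?_⟩
    have h2 := hxl q i
    rw [if_pos (Or.inl rfl)] at h2
    rw [← h1, h2]
    ring

end Pool.Agent.W440.WA.Tbl
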